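import Pool.Agent.Lib.helper29.SelfInv5

set_option autoImplicit false

namespace Pool.Agent.Results.MP_c7fa02_an.Reciprocal

/-- A nonconstant complex polynomial whose zeros are invariant, with multiplicity, under
`ζ ↦ 1 / ζ` maps the unit disc onto a set containing an open disc of radius the largest
modulus of a coefficient. -/
theorem result (P : Polynomial ℂ) (hn : 1 ≤ P.natDegree) (h0 : P.eval 0 ≠ 0)
    (h : ∀ ζ : ℂ, P.IsRoot ζ → P.rootMultiplicity ζ⁻¹ = P.rootMultiplicity ζ) :
    ∃ w₀ : ℂ, Metric.ball w₀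
        ((Finset.range (P.natDegree + 1)).sup' Finset.nonempty_range_add_one fun k => ‖P.coeff k‖)
      ⊆ (fun z => P.eval z) '' Metric.ball (0 : ℂ) 1 := by
  obtain ⟨k, hk, e⟩ := Finset.exists_mem_eq_sup' (Finset.nonempty_range_add_one (n := P.natDegree))
    fun k => ‖P.coeff k‖
  rw [e]
  exact Lib.H29.SelfInv.recip_main P hn h0 h k (Nat.lt_succ_iff.mp (Finset.mem_range.mp hk))

end Pool.Agent.Results.MP_c7fa02_an.Reciprocal
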